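import Pool.Agent.Q78.WI.Stm

/-! Job WI-E8 of the project WI (helper58): contradiction in large dimension. -/

set_option autoImplicit false

open MeasureTheory ProbabilityTheory Filter Topology Set
open scoped NNReal InnerProductSpace Matrix

namespace Pool.Agent.Q58.WI

open Pool.Agent.Q78.WI

universe v

theorem Fn_ge (h2 : S_E2) {s δ : ℝ} (hδ : 0 < δ)
    (h : ∀ (d : ℕ) (e : Fin d → ℝ), (∀ i, 0 ≤ e i) → |∑ i, e i - s| ≤ δ →
      ∑ i, e i * (1 / 2 - e i) ^ 2 ≤ δ → False)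
    {d : ℕ} (M : Matrix (Fin d) (Fin d) ℝ) (hM : M.PosSemidef) (n : ℕ) :
    min δ (δ ^ 2) ≤ Fn s M n := by
  obtain ⟨l, hl0, ht1, ht2, ht3, -⟩ := h2 d M hM.1
  have hl := hl0 hM
  set c : ℝ := (n : ℝ) / d with hc
  have hc0 : 0 ≤ c := by positivity
  have key : Fn s M n = (∑ i, c * l i - s) ^ 2 + ∑ i, (c * l i) * (1 / 2 - c * l i) ^ 2 := by
    have e1 : ∑ i, (c * l i) * (1 / 2 - c * l i) ^ 2 =
        c * (∑ i, l i) / 4 - c ^ 2 * (∑ i, l i ^ 2) + c ^ 3 * (∑ i, l i ^ 3) := by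
      rw [Finset.mul_sum, Finset.mul_sum, Finset.mul_sum, Finset.sum_div, ← Finset.sum_sub_distrib,
        ← Finset.sum_add_distrib]
      refine Finset.sum_congr rfl fun i _ => ?_
      ring
    rw [e1, ← Finset.mul_sum]
    unfold Fn
    rw [ht1, ht2, ht3]
    ring
  have hnn : ∀ i, 0 ≤ c * l i := fun i => mul_nonneg hc0 (hl i)
  have hs2 : 0 ≤ ∑ i, (c * l i) * (1 / 2 - c * l i) ^ 2 :=
    Finset.sum_nonneg fun i _ => mul_nonneg (hnn i) (sq_nonneg _)
  by_contra hlt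
  rw [not_le, key] at hlt
  have h3 := lt_of_lt_of_le hlt (min_le_left δ (δ ^ 2))
  have h4 := lt_of_lt_of_le hlt (min_le_right δ (δ ^ 2))
  have h5 := sq_nonneg (∑ i, c * l i - s)
  refine h d (fun i => c * l i) hnn ?_ ?_
  · exact abs_le_of_sq_le_sq (by linarith) hδ.le
  · linarith

theorem e8 (h1 : S_E1) (h2 : S_E2) (h7b : S_E7b.{v}) : S_E8.{v} := by
  intro α hα
  obtain ⟨δ, hδ, h⟩ := h1 (α / 2) (fun m hm => hα m (by linarith))
  set s : ℝ := α / 2 with hs
  set η : ℝ := min δ (δ ^ 2) with hη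
  have hη0 : 0 < η := lt_min hδ (by positivity)
  have hlim : Tendsto (fun d : ℕ => (5 * s / 4 + s ^ 2 / 2) / (d : ℝ)
      + (s + 3 * s ^ 2 / 2 + s ^ 3) / (d : ℝ) ^ 2) atTop (𝓝 0) := by
    have a1 : Tendsto (fun d : ℕ => (5 * s / 4 + s ^ 2 / 2) / (d : ℝ)) atTop (𝓝 0) :=
      tendsto_const_div_atTop_nhds_zero_nat _
    have a2 : Tendsto (fun d : ℕ => (s + 3 * s ^ 2 / 2 + s ^ 3) / (d : ℝ) ^ 2) atTop (𝓝 0) := by
      have b1 := tendsto_const_div_atTop_nhds_zero_nat (s + 3 * s ^ 2 / 2 + s ^ 3)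
      have b2 := tendsto_const_div_atTop_nhds_zero_nat (1 : ℝ)
      have b3 := b1.mul b2
      rw [mul_zero] at b3
      refine b3.congr fun d => ?_
      rw [div_mul_div_comm, mul_one, sq (d : ℝ)]
    have := a1.add a2
    rwa [add_zero] at this
  obtain ⟨d₁, hd₁⟩ := (hlim.eventually (gt_mem_nhds hη0)).exists_forall_of_atTop
  refine ⟨max d₁ 1, fun d hd Ω _ P _ M N hW => ?_⟩
  have hdpos : 0 < d := lt_of_lt_of_le Nat.one_pos ((le_max_right d₁ 1).trans hd)
  have hε := hd₁ d ((le_max_left d₁ 1).trans hd)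
  obtain ⟨i1, i2, l1, l2⟩ := h7b Ω P α d M N hdpos hW s _ hs rfl
  set κ : ℝ := ∫ ω, Real.exp (-(N ω).trace) ∂P with hκ
  have hκ0 : 0 < κ := by
    rw [hκ]
    refine integral_exp_pos ?_
    refine Integrable.of_bound (C := 1) ?_ ?_
    · refine Measurable.aestronglyMeasurable ?_
      refine Real.measurable_exp.comp ?_
      refine Measurable.neg ?_
      unfold Matrix.trace
      exact Finset.measurable_sum _ fun i _ => hW.measN i i
    · refine Eventually.of_forall fun ω => ?_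
      rw [Real.norm_eq_abs, abs_of_pos (Real.exp_pos _), Real.exp_le_one_iff]
      have : 0 ≤ (N ω).trace := (hW.posN ω).trace_nonneg
      linarith
  have hle : ∀ n : ℕ, η * ∫ ω, wt α (M ω) n ∂P ≤ ∫ ω, Fn s (M ω) n * wt α (M ω) n ∂P := by
    intro n
    rw [← integral_const_mul]
    refine integral_mono ((i2 n).const_mul _) (i1 n) fun ω => ?_
    have hw : 0 ≤ wt α (M ω) n := by
      unfold wt
      exact mul_nonneg (Real.rpow_nonneg (Nat.cast_nonneg n) _) (Real.exp_pos _).le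
    exact mul_le_mul_of_nonneg_right (Fn_ge h2 hδ h (M ω) (hW.posM ω) n) hw
  have hfin := le_of_tendsto_of_tendsto' (l1.const_mul η) l2 hle
  rw [mul_comm η κ] at hfin
  have := le_of_mul_le_mul_left hfin hκ0
  linarith

end Pool.Agent.Q58.WI
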